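import Mathlib
import Pool.Agent.H55.Berg9

set_option autoImplicit false

namespace Pool.Agent.Results.MP_c1f8f0_an.PoissonWeightCounterexample

open MeasureTheory Metric Filter Topology
open Pool.Agent.H55 (NN bb rho sig wgt RR)

/-- The normalised area measure `dA = dx dy / π` on the open unit disc. -/
noncomputable def area : Measure ℂ := (ENNReal.ofReal Real.pi)⁻¹ • volume.restrict (ball (0:ℂ) 1)

/-- The measure `v dA`; thus `L^2(v)` is `L^2` of this measure. -/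
noncomputable def weighted (v : ℂ → ℝ) : Measure ℂ :=
  area.withDensity fun z => ENNReal.ofReal (v z)

/-- The Bergman projection `P_B g (z) = ∫ g(ξ) (1 - z conj ξ)^(-2) dA(ξ)`. -/
noncomputable def bergman (g : ℂ → ℂ) (z : ℂ) : ℂ :=
  ∫ ξ, g ξ / (1 - z * starRingEnd ℂ ξ) ^ 2 ∂area

/-- The maximal Bergman projection `P_B^+ g (z) = ∫ g(ξ) |1 - z conj ξ|^(-2) dA(ξ)`. -/
noncomputable def bergmanPos (g : ℂ → ℂ) (z : ℂ) : ℂ :=
  ∫ ξ, g ξ / ((‖1 - z * starRingEnd ℂ ξ‖ ^ 2 : ℝ) : ℂ) ∂area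

/-- A subharmonic weight on the open unit disc: nonnegative, locally integrable, upper
semicontinuous, and below its circle averages over all circles bounding a closed disc inside
the unit disc. -/
structure IsSubharmonicWeight (v : ℂ → ℝ) : Prop where
  nonneg : ∀ z ∈ ball (0:ℂ) 1, 0 ≤ v z
  locallyIntegrable : LocallyIntegrableOn v (ball (0:ℂ) 1)
  upperSemicontinuous : UpperSemicontinuousOn v (ball (0:ℂ) 1)
  circleIntegrable : ∀ (z : ℂ) (r : ℝ), 0 < r → closedBall z r ⊆ ball (0:ℂ) 1 →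
    CircleIntegrable v z r
  le_circleAverage : ∀ (z : ℂ) (r : ℝ), 0 < r → closedBall z r ⊆ ball (0:ℂ) 1 →
    v z ≤ Real.circleAverage v z r

/-- `w(z) = (1 - |z|^2) / |1 - z|^2`, the Poisson kernel. -/
noncomputable def w (z : ℂ) : ℝ := (1 - ‖z‖ ^ 2) / ‖1 - z‖ ^ 2

/-- `σ(z) = |1 - z|^2 ∑_k (N_k / 2^k) |z|^(2 (N_k - 1))` with `N_k = 2^(4^k)`. -/
noncomputable def σ (z : ℂ) : ℝ :=
  ‖1 - z‖ ^ 2 * ∑' k : ℕ, ((2:ℝ) ^ (4 ^ k) / 2 ^ k) * ‖z‖ ^ (2 * (2 ^ (4 ^ k) - 1))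

private lemma σ_eq : σ = sig := by
  funext z
  unfold σ Pool.Agent.H55.sig Pool.Agent.H55.rho
  congr 1
  apply tsum_congr
  intro k
  unfold Pool.Agent.H55.bb Pool.Agent.H55.NN
  rw [pow_mul ‖z‖ 2]
  push_cast
  rfl

private lemma w_eq {z : ℂ} (hz : z ∈ ball (0:ℂ) 1) : w z = wgt z :=
  (Pool.Agent.H55.wgt_eq (mem_ball_zero_iff.mp hz)).symm

private lemma vol_disc : (volume : Measure ℂ) (ball (0:ℂ) 1) = ENNReal.ofReal Real.pi := by
  rw [Complex.volume_ball]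
  simp
  rw [← NNReal.coe_real_pi, ENNReal.ofReal_coe_nnreal]

private lemma pi0 : ENNReal.ofReal Real.pi ≠ 0 := by
  simp [Real.pi_pos]

private lemma area_univ : area Set.univ = 1 := by
  unfold area
  rw [Measure.smul_apply, Measure.restrict_apply_univ, vol_disc, smul_eq_mul,
    ENNReal.inv_mul_cancel pi0 ENNReal.ofReal_ne_top]

private lemma ae_area {p : ℂ → Prop} : (∀ᵐ z ∂area, p z) ↔ ∀ᵐ z ∂(volume.restrict (ball (0:ℂ) 1)), p z := by
  unfold area
  rw [Measure.ae_ennreal_smul_measure_iff]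
  simp

private lemma mem_area : ∀ᵐ z ∂area, z ∈ ball (0:ℂ) 1 :=
  ae_area.mpr (ae_restrict_mem measurableSet_ball)

private lemma σ_cont : ContinuousOn σ (ball (0:ℂ) 1) := by
  rw [σ_eq]; exact Pool.Agent.H55.sig_continuousOn

private lemma w_cont : ContinuousOn w (ball (0:ℂ) 1) :=
  Pool.Agent.H55.wgt_continuousOn.congr fun _ hz => w_eq hz

private lemma aem_area {v : ℂ → ℝ} (hv : ContinuousOn v (ball (0:ℂ) 1)) : AEMeasurable v area := by
  unfold area
  exact (hv.aemeasurable measurableSet_ball).smul_measure _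

private lemma area_ac : area ≪ volume.restrict (ball (0:ℂ) 1) := by
  unfold area
  exact Measure.smul_absolutelyContinuous

/-- the square of the norm of `L^2(v)` -/
private lemma sq_norm {v : ℂ → ℝ} (hv : ContinuousOn v (ball (0:ℂ) 1)) (f : ℂ → ℂ) :
    eLpNorm f 2 (weighted v) ^ 2 = (ENNReal.ofReal Real.pi)⁻¹ *
      ∫⁻ z in ball (0:ℂ) 1, ‖f z‖ₑ ^ 2 * ENNReal.ofReal (v z) := by
  have h1 := eLpNorm_nnreal_pow_eq_lintegral (μ := weighted v) (f := f) (p := 2) (by norm_num)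
  have h2 : ((2 : NNReal) : ENNReal) = 2 := by norm_num
  rw [h2] at h1
  simp only [NNReal.coe_ofNat, ENNReal.rpow_ofNat] at h1
  rw [h1]
  unfold weighted
  rw [lintegral_withDensity_eq_lintegral_mul_non_measurable₀ _ (aem_area hv).ennreal_ofReal
    (Eventually.of_forall fun _ => ENNReal.ofReal_lt_top)]
  unfold area
  rw [lintegral_smul_measure, smul_eq_mul]
  congr 1
  apply lintegral_congr
  intro z
  simp only [Pi.mul_apply]
  rw [mul_comm]

private lemma sphere_sub {z : ℂ} {r : ℝ} (hr : 0 < r) (h : closedBall z r ⊆ ball (0:ℂ) 1) :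
    sphere z |r| ⊆ ball (0:ℂ) 1 := by
  rw [abs_of_pos hr]
  exact sphere_subset_closedBall.trans h

private lemma w_harm : InnerProductSpace.HarmonicOnNhd w (ball (0:ℂ) 1) := by
  intro z hz
  have h1 : InnerProductSpace.HarmonicAt (fun ζ : ℂ => ((1 + ζ) / (1 - ζ)).re) z := by
    apply AnalyticAt.harmonicAt_re
    refine AnalyticAt.div (by fun_prop) (by fun_prop) ?_
    exact Pool.Agent.H55.one_sub_ne (mem_ball_zero_iff.mp hz)
  refine (InnerProductSpace.harmonicAt_congr_nhds ?_).mp h1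
  filter_upwards [isOpen_ball.mem_nhds hz] with ζ hζ
  exact (w_eq hζ).symm

private lemma w_pos {z : ℂ} (hz : z ∈ ball (0:ℂ) 1) : 0 < w z := by
  have h1 : ‖z‖ < 1 := mem_ball_zero_iff.mp hz
  have h2 : 0 < ‖1 - z‖ := norm_pos_iff.mpr (Pool.Agent.H55.one_sub_ne h1)
  unfold w
  have : 0 < 1 - ‖z‖ ^ 2 := by nlinarith [norm_nonneg z]
  positivity

private lemma locInt_of_cont {v : ℂ → ℝ} (hv : ContinuousOn v (ball (0:ℂ) 1)) :
    LocallyIntegrableOn v (ball (0:ℂ) 1) :=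
  hv.locallyIntegrableOn measurableSet_ball

private lemma w_sub : IsSubharmonicWeight w where
  nonneg z hz := (w_pos hz).le
  locallyIntegrable := locInt_of_cont w_cont
  upperSemicontinuous := w_cont.upperSemicontinuousOn
  circleIntegrable z r hr h :=
    ContinuousOn.circleIntegrable' (w_cont.mono (sphere_sub hr h))
  le_circleAverage z r hr h := by
    have h1 : w z = wgt z := w_eq (h (mem_closedBall_self hr.le))
    have h2 : Real.circleAverage w z r = Real.circleAverage wgt z r :=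
      Real.circleAverage_congr_sphere fun x hx => w_eq (sphere_sub hr h hx)
    rw [h1, h2, Real.circleAverage_def, smul_eq_mul]
    exact Pool.Agent.H55.wgt_subMean hr h

private lemma σ_sub : IsSubharmonicWeight σ where
  nonneg z _ := by rw [σ_eq]; exact Pool.Agent.H55.sig_nonneg z
  locallyIntegrable := locInt_of_cont σ_cont
  upperSemicontinuous := σ_cont.upperSemicontinuousOn
  circleIntegrable z r hr h :=
    ContinuousOn.circleIntegrable' (σ_cont.mono (sphere_sub hr h))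
  le_circleAverage z r hr h := by
    rw [σ_eq, Real.circleAverage_def, smul_eq_mul]
    exact Pool.Agent.H55.sig_subMean hr h

private lemma σ_int0 : IntegrableOn σ (ball (0:ℂ) 1) := by
  have h := Pool.Agent.H55.sig_integrable_f (f := fun _ => 1) (M := 1) (by fun_prop) (by simp)
  rw [σ_eq]
  simpa using h

private lemma int_area {E : Type*} [NormedAddCommGroup E] {g : ℂ → E}
    (h : IntegrableOn g (ball (0:ℂ) 1)) : Integrable g area := by
  unfold area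
  exact Integrable.smul_measure h (by simp [Real.pi_pos])

private lemma area_int {E : Type*} [NormedAddCommGroup E] {g : ℂ → E}
    (h : Integrable g area) : IntegrableOn g (ball (0:ℂ) 1) := by
  unfold area at h
  exact (integrable_smul_measure (by simp) (by simp [Real.pi_pos])).mp h

private lemma den_bound {z ξ : ℂ} (hz : z ∈ ball (0:ℂ) 1) (hξ : ξ ∈ ball (0:ℂ) 1) :
    1 - ‖z‖ ≤ ‖1 - z * starRingEnd ℂ ξ‖ := by
  have hz1 : ‖z‖ < 1 := mem_ball_zero_iff.mp hz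
  have hξ1 : ‖ξ‖ < 1 := mem_ball_zero_iff.mp hξ
  have h1 : ‖z * starRingEnd ℂ ξ‖ ≤ ‖z‖ := by
    rw [norm_mul, RCLike.norm_conj]
    nlinarith [norm_nonneg z, norm_nonneg ξ]
  have h2 : ‖(1:ℂ)‖ ≤ ‖1 - z * starRingEnd ℂ ξ‖ + ‖z * starRingEnd ℂ ξ‖ := by
    have h3 := norm_add_le (1 - z * starRingEnd ℂ ξ) (z * starRingEnd ℂ ξ)
    rwa [sub_add_cancel] at h3
  rw [norm_one] at h2
  linarith

/-- the integrand of `P_B` is integrable for every point of the disc -/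
private lemma kernel_int {g : ℂ → ℂ} (hg : Integrable g area) {z : ℂ} (hz : z ∈ ball (0:ℂ) 1) :
    Integrable (fun ξ => g ξ / (1 - z * starRingEnd ℂ ξ) ^ 2) area := by
  have hz1 : ‖z‖ < 1 := mem_ball_zero_iff.mp hz
  have h1 : Integrable (fun ξ => ((1 - z * starRingEnd ℂ ξ) ^ 2)⁻¹ * g ξ) area := by
    refine hg.bdd_mul (c := ((1 - ‖z‖) ^ 2)⁻¹) ?_ ?_
    · have : Measurable (fun ξ : ℂ => ((1 - z * starRingEnd ℂ ξ) ^ 2)⁻¹) := by
        have h2 : Continuous (fun ξ : ℂ => (1 - z * starRingEnd ℂ ξ) ^ 2) := by fun_prop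
        exact h2.measurable.inv
      exact this.aestronglyMeasurable
    · filter_upwards [mem_area] with ξ hξ
      rw [norm_inv, norm_pow]
      have h3 := den_bound hz hξ
      have h4 : 0 < 1 - ‖z‖ := by linarith
      gcongr
  refine h1.congr (Eventually.of_forall fun ξ => ?_)
  simp only []
  rw [div_eq_mul_inv, mul_comm]

/-- the integrand of `P_B^+` is integrable for every point of the disc -/
private lemma kernelPos_int {g : ℂ → ℂ} (hg : Integrable g area) {z : ℂ} (hz : z ∈ ball (0:ℂ) 1) :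
    Integrable (fun ξ => g ξ / ((‖1 - z * starRingEnd ℂ ξ‖ ^ 2 : ℝ) : ℂ)) area := by
  have h1 := kernel_int hg hz
  have hz1 : ‖z‖ < 1 := mem_ball_zero_iff.mp hz
  have h1 : Integrable (fun ξ => ((‖1 - z * starRingEnd ℂ ξ‖ ^ 2 : ℝ) : ℂ)⁻¹ * g ξ) area := by
    refine hg.bdd_mul (c := ((1 - ‖z‖) ^ 2)⁻¹) ?_ ?_
    · have : Measurable (fun ξ : ℂ => ((‖1 - z * starRingEnd ℂ ξ‖ ^ 2 : ℝ) : ℂ)⁻¹) := by
        have h2 : Continuous (fun ξ : ℂ => ((‖1 - z * starRingEnd ℂ ξ‖ ^ 2 : ℝ) : ℂ)) := by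
          fun_prop
        exact h2.measurable.inv
      exact this.aestronglyMeasurable
    · filter_upwards [mem_area] with ξ hξ
      rw [norm_inv, Complex.norm_real, norm_pow, norm_norm]
      have h3 := den_bound hz hξ
      have h4 : 0 < 1 - ‖z‖ := by linarith
      gcongr
  refine h1.congr (Eventually.of_forall fun ξ => ?_)
  simp only []
  rw [div_eq_mul_inv, mul_comm]

/-- `P_B g` is measurable -/
private lemma bergman_meas {g : ℂ → ℂ} (hg : AEStronglyMeasurable g area) :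
    AEStronglyMeasurable (bergman g) area := by
  have : SFinite area := by unfold area; infer_instance
  have h1 : AEStronglyMeasurable (fun p : ℂ × ℂ => g p.2 / (1 - p.1 * starRingEnd ℂ p.2) ^ 2)
      (area.prod area) := by
    have h2 : AEStronglyMeasurable (fun p : ℂ × ℂ => g p.2) (area.prod area) := hg.comp_snd
    have h3 : Measurable (fun p : ℂ × ℂ => ((1 - p.1 * starRingEnd ℂ p.2) ^ 2)⁻¹) := by
      have h4 : Continuous (fun p : ℂ × ℂ => (1 - p.1 * starRingEnd ℂ p.2) ^ 2) := by fun_prop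
      exact h4.measurable.inv
    have h5 := h2.mul h3.aestronglyMeasurable
    refine h5.congr (Eventually.of_forall fun p => ?_)
    simp only [Pi.mul_apply]
    rw [div_eq_mul_inv]
  exact h1.integral_prod_right'

/-- `P_B^+ g` is measurable -/
private lemma bergmanPos_meas {g : ℂ → ℂ} (hg : AEStronglyMeasurable g area) :
    AEStronglyMeasurable (bergmanPos g) area := by
  have : SFinite area := by unfold area; infer_instance
  have h1 : AEStronglyMeasurable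
      (fun p : ℂ × ℂ => g p.2 / ((‖1 - p.1 * starRingEnd ℂ p.2‖ ^ 2 : ℝ) : ℂ))
      (area.prod area) := by
    have h2 : AEStronglyMeasurable (fun p : ℂ × ℂ => g p.2) (area.prod area) := hg.comp_snd
    have h3 : Measurable (fun p : ℂ × ℂ => ((‖1 - p.1 * starRingEnd ℂ p.2‖ ^ 2 : ℝ) : ℂ)⁻¹) := by
      have h4 : Continuous (fun p : ℂ × ℂ => ((‖1 - p.1 * starRingEnd ℂ p.2‖ ^ 2 : ℝ) : ℂ)) := by
        fun_prop
      exact h4.measurable.inv
    have h5 := h2.mul h3.aestronglyMeasurable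
    refine h5.congr (Eventually.of_forall fun p => ?_)
    simp only [Pi.mul_apply]
    rw [div_eq_mul_inv]
  exact h1.integral_prod_right'

private lemma weighted_ac (v : ℂ → ℝ) : weighted v ≪ area := withDensity_absolutelyContinuous _ _

/-- functions of `L^2(σ)`: replace by a measurable function, `σ f` is integrable -/
private lemma mk_data {f : ℂ → ℂ} (hf : MemLp f 2 (weighted σ)) :
    ∃ g : ℂ → ℂ, Measurable g ∧ f =ᵐ[weighted σ] g ∧
      (fun ξ => (σ ξ : ℂ) * f ξ) =ᵐ[area] (fun ξ => (σ ξ : ℂ) * g ξ) ∧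
      Integrable (fun ξ => (σ ξ : ℂ) * g ξ) area := by
  obtain ⟨g, hg, hfg⟩ := hf.1
  have hgm : Measurable g := hg.measurable
  have hae : (fun ξ => (σ ξ : ℂ) * f ξ) =ᵐ[area] (fun ξ => (σ ξ : ℂ) * g ξ) := by
    have h1 := (ae_withDensity_iff' (aem_area σ_cont).ennreal_ofReal).mp hfg
    filter_upwards [h1, mem_area] with ξ hξ hb
    by_cases h0 : σ ξ = 0
    · simp [h0]
    · have : ENNReal.ofReal (σ ξ) ≠ 0 := by
        have h2 := σ_sub.nonneg ξ hb
        have h3 : 0 < σ ξ := lt_of_le_of_ne h2 (Ne.symm h0)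
        simp [h3]
      rw [hξ this]
  refine ⟨g, hgm, hfg, hae, ?_⟩
  have hgL : MemLp g 2 (weighted σ) := (memLp_congr_ae hfg).mp hf
  -- the square is integrable
  have h2 : Integrable (fun ξ => ‖g ξ‖ ^ 2 * σ ξ) area := by
    refine ⟨?_, ?_⟩
    · exact ((hgm.norm.pow_const 2).aestronglyMeasurable).mul
        (aem_area σ_cont).aestronglyMeasurable
    · have h3 : eLpNorm g 2 (weighted σ) ^ 2 < ⊤ := ENNReal.pow_lt_top hgL.2
      rw [sq_norm σ_cont] at h3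
      unfold HasFiniteIntegral area
      rw [lintegral_smul_measure, smul_eq_mul]
      refine lt_of_le_of_lt (le_of_eq ?_) h3
      congr 1
      apply setLIntegral_congr_fun measurableSet_ball
      intro z hz
      simp only []
      rw [enorm_mul, enorm_pow, enorm_norm, Real.enorm_of_nonneg (σ_sub.nonneg z hz)]
  have h4 : Integrable (fun ξ => σ ξ + ‖g ξ‖ ^ 2 * σ ξ) area := (int_area σ_int0).add h2
  refine h4.mono ?_ ?_
  · exact (Complex.measurable_ofReal.comp_aemeasurable (aem_area σ_cont)).aestronglyMeasurable.mul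
      hgm.aestronglyMeasurable
  · filter_upwards [mem_area] with ξ hb
    have h5 := σ_sub.nonneg ξ hb
    have h6 : 0 ≤ σ ξ + ‖g ξ‖ ^ 2 * σ ξ := by positivity
    rw [norm_mul, Complex.norm_real, Real.norm_of_nonneg h5, Real.norm_of_nonneg h6]
    nlinarith [sq_nonneg (‖g ξ‖ - 1 / 2), norm_nonneg (g ξ)]

private lemma sq_le_iff {a b : ENNReal} : a ^ 2 ≤ b ^ 2 ↔ a ≤ b :=
  (ENNReal.pow_right_strictMono two_ne_zero).le_iff_le

private lemma bounded_aux : ∃ C : NNReal, ∀ g : ℂ → ℂ, Measurable g → ∀ M : ℝ, (∀ z, ‖g z‖ ≤ M) →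
    eLpNorm (bergman fun ξ => (σ ξ : ℂ) * g ξ) 2 (weighted w) ≤ C * eLpNorm g 2 (weighted σ) := by
  set c : ENNReal := (ENNReal.ofReal Real.pi)⁻¹ with hc
  set K : ENNReal := c ^ 2 * ENNReal.ofReal (Real.pi * RR) with hK
  have hcT : c ≠ ⊤ := by simp [hc, Real.pi_pos]
  have hKT : K ≠ ⊤ := ENNReal.mul_ne_top (ENNReal.pow_ne_top hcT) ENNReal.ofReal_ne_top
  refine ⟨NNReal.sqrt K.toNNReal, fun g hg M hM => ?_⟩
  rw [← sq_le_iff, mul_pow]
  have hC : ((NNReal.sqrt K.toNNReal : NNReal) : ENNReal) ^ 2 = K := by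
    rw [← ENNReal.coe_pow, NNReal.sq_sqrt, ENNReal.coe_toNNReal hKT]
  rw [hC, sq_norm w_cont, sq_norm σ_cont, ← hc]
  have h1 := Pool.Agent.H55.bergman_bounded hg hM
  have h2 : ∀ z ∈ ball (0:ℂ) 1, ‖bergman (fun ξ => (σ ξ : ℂ) * g ξ) z‖ₑ ^ 2 * ENNReal.ofReal (w z)
      = c ^ 2 * (‖∫ ζ in ball (0:ℂ) 1, g ζ * (sig ζ : ℂ) / (1 - z * starRingEnd ℂ ζ) ^ 2‖ₑ ^ 2 *
          ENNReal.ofReal (wgt z)) := by
    intro z hz
    unfold bergman area
    rw [integral_smul_measure, enorm_smul, ← hc, w_eq hz, mul_pow, mul_assoc]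
    have h3 : ‖c.toReal‖ₑ = c := by
      rw [Real.enorm_of_nonneg ENNReal.toReal_nonneg, ENNReal.ofReal_toReal hcT]
    rw [h3, σ_eq]
    congr 4
    apply integral_congr_ae
    refine Eventually.of_forall fun ζ => ?_
    simp only []
    rw [mul_comm (g ζ)]
  rw [setLIntegral_congr_fun measurableSet_ball h2, lintegral_const_mul' _ _ (ENNReal.pow_ne_top hcT)]
  calc c * (c ^ 2 * ∫⁻ z in ball (0:ℂ) 1,
        ‖∫ ζ in ball (0:ℂ) 1, g ζ * (sig ζ : ℂ) / (1 - z * starRingEnd ℂ ζ) ^ 2‖ₑ ^ 2 *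
          ENNReal.ofReal (wgt z))
      ≤ c * (c ^ 2 * (ENNReal.ofReal (Real.pi * RR) *
        ∫⁻ ζ in ball (0:ℂ) 1, ‖g ζ‖ₑ ^ 2 * ENNReal.ofReal (sig ζ))) := by gcongr
    _ = K * (c * ∫⁻ z in ball (0:ℂ) 1, ‖g z‖ₑ ^ 2 * ENNReal.ofReal (σ z)) := by
        rw [hK, σ_eq]; ring

private lemma bounded_main : ∃ C : NNReal, ∀ f : ℂ → ℂ, MemLp f 2 (weighted σ) →
    eLpNorm (bergman fun ξ => (σ ξ : ℂ) * f ξ) 2 (weighted w) ≤ C * eLpNorm f 2 (weighted σ) := by
  obtain ⟨C, hC⟩ := bounded_aux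
  refine ⟨C, fun f hf => ?_⟩
  obtain ⟨g, hg, hfg, hae, hint⟩ := mk_data hf
  have e1 : bergman (fun ξ => (σ ξ : ℂ) * f ξ) = bergman (fun ξ => (σ ξ : ℂ) * g ξ) := by
    funext z
    unfold bergman
    apply integral_congr_ae
    filter_upwards [hae] with ξ hξ
    rw [hξ]
  rw [e1, eLpNorm_congr_ae hfg]
  -- truncation
  set G : ℕ → ℂ → ℂ := fun n => Set.indicator {z | ‖g z‖ ≤ n} g with hG
  have hGm : ∀ n, Measurable (G n) := fun n => hg.indicator (measurableSet_le hg.norm measurable_const)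
  have hGle : ∀ n z, ‖G n z‖ ≤ ‖g z‖ := fun n z => norm_indicator_le_norm_self _ _
  have hGb : ∀ n z, ‖G n z‖ ≤ (n:ℝ) := by
    intro n z
    by_cases h : z ∈ {z | ‖g z‖ ≤ (n:ℝ)}
    · simp only [hG, Set.indicator_of_mem h]
      exact h
    · simp only [hG, Set.indicator_of_notMem h, norm_zero]
      positivity
  have hGint : ∀ n, Integrable (fun ξ => (σ ξ : ℂ) * G n ξ) area := by
    intro n
    refine hint.mono ?_ ?_
    · exact (Complex.measurable_ofReal.comp_aemeasurable (aem_area σ_cont)).aestronglyMeasurable.mul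
        (hGm n).aestronglyMeasurable
    · refine Eventually.of_forall fun ξ => ?_
      rw [norm_mul, norm_mul]
      exact mul_le_mul_of_nonneg_left (hGle n ξ) (norm_nonneg _)
  have hlim : ∀ z ∈ ball (0:ℂ) 1, Tendsto (fun n => bergman (fun ξ => (σ ξ : ℂ) * G n ξ) z) atTop
      (𝓝 (bergman (fun ξ => (σ ξ : ℂ) * g ξ) z)) := by
    intro z hz
    unfold bergman
    refine tendsto_integral_of_dominated_convergence
      (fun ξ => ‖(σ ξ : ℂ) * g ξ / (1 - z * starRingEnd ℂ ξ) ^ 2‖) ?_ ?_ ?_ ?_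
    · intro n
      exact (kernel_int (hGint n) hz).1
    · exact (kernel_int hint hz).norm
    · intro n
      refine Eventually.of_forall fun ξ => ?_
      rw [norm_div, norm_div, norm_mul, norm_mul]
      gcongr
      exact hGle n ξ
    · refine Eventually.of_forall fun ξ => ?_
      have h1 : ∀ᶠ n : ℕ in atTop, G n ξ = g ξ := by
        filter_upwards [eventually_ge_atTop ⌈‖g ξ‖⌉₊] with n hn
        have h3 : ‖g ξ‖ ≤ (n:ℝ) := (Nat.le_ceil ‖g ξ‖).trans (by exact_mod_cast hn)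
        have h2 : ξ ∈ {z | ‖g z‖ ≤ (n:ℝ)} := h3
        simp only [hG, Set.indicator_of_mem h2]
      refine tendsto_const_nhds.congr' ?_
      filter_upwards [h1] with n hn
      rw [hn]
  have h5 := Lp.eLpNorm_lim_le_liminf_eLpNorm (μ := weighted w) (p := 2)
    (f := fun n => bergman (fun ξ => (σ ξ : ℂ) * G n ξ))
    (fun n => (bergman_meas (hGint n).1).mono_ac (weighted_ac w))
    (bergman (fun ξ => (σ ξ : ℂ) * g ξ)) ((weighted_ac w).ae_le (by
      filter_upwards [mem_area] with z hz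
      exact hlim z hz))
  refine h5.trans ?_
  refine liminf_le_of_le (by isBoundedDefault) ?_
  intro b hb
  obtain ⟨n, hn⟩ := hb.exists
  refine hn.trans ((hC (G n) (hGm n) n (hGb n)).trans ?_)
  gcongr
  exact eLpNorm_mono (hGle n)

/-- the modulus of `P_B^+ (σ f)` for `f ≥ 0` -/
private lemma pos_formula {f : ℂ → ℝ} (hf0 : ∀ ξ, 0 ≤ f ξ)
    (hint : Integrable (fun ξ => (σ ξ : ℂ) * (f ξ : ℂ)) area) {z : ℂ} (hz : z ∈ ball (0:ℂ) 1) :
    ‖bergmanPos (fun ξ => (σ ξ : ℂ) * (f ξ : ℂ)) z‖ₑ = (ENNReal.ofReal Real.pi)⁻¹ *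
      ∫⁻ ζ in ball (0:ℂ) 1, ‖f ζ‖ₑ * ENNReal.ofReal (σ ζ) / ‖1 - z * starRingEnd ℂ ζ‖ₑ ^ 2 := by
  have h1 := kernelPos_int hint hz
  have e1 : (fun ξ => (σ ξ : ℂ) * (f ξ : ℂ) / ((‖1 - z * starRingEnd ℂ ξ‖ ^ 2 : ℝ) : ℂ))
      = fun ξ => ((σ ξ * f ξ / ‖1 - z * starRingEnd ℂ ξ‖ ^ 2 : ℝ) : ℂ) := by
    funext ξ
    push_cast
    ring
  rw [e1] at h1
  have h2 : Integrable (fun ξ => σ ξ * f ξ / ‖1 - z * starRingEnd ℂ ξ‖ ^ 2) area := by
    refine h1.re.congr (Eventually.of_forall fun ξ => ?_)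
    exact Complex.ofReal_re _
  have hnn : 0 ≤ᵐ[area] fun ξ => σ ξ * f ξ / ‖1 - z * starRingEnd ℂ ξ‖ ^ 2 := by
    filter_upwards [mem_area] with ξ hξ
    have h3 := σ_sub.nonneg ξ hξ
    have h4 := hf0 ξ
    simp only [Pi.zero_apply]
    positivity
  unfold bergmanPos
  rw [e1, integral_complex_ofReal]
  have h5 : ‖((∫ ξ, σ ξ * f ξ / ‖1 - z * starRingEnd ℂ ξ‖ ^ 2 ∂area : ℝ) : ℂ)‖ₑ
      = ENNReal.ofReal (∫ ξ, σ ξ * f ξ / ‖1 - z * starRingEnd ℂ ξ‖ ^ 2 ∂area) := by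
    rw [← ofReal_norm, Complex.norm_real, Real.norm_of_nonneg (integral_nonneg_of_ae hnn)]
  refine Eq.trans h5 ?_
  rw [ofReal_integral_eq_lintegral_ofReal h2 hnn]
  unfold area
  rw [lintegral_smul_measure, smul_eq_mul]
  congr 1
  apply setLIntegral_congr_fun measurableSet_ball
  intro ζ hζ
  have h6 := σ_sub.nonneg ζ hζ
  have h7 : 0 < ‖1 - z * starRingEnd ℂ ζ‖ := by
    have h8 := den_bound hz hζ
    have h9 : ‖z‖ < 1 := mem_ball_zero_iff.mp hz
    linarith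
  simp only []
  rw [ENNReal.ofReal_div_of_pos (by positivity), ENNReal.ofReal_mul h6,
    ENNReal.ofReal_pow (norm_nonneg _), ofReal_norm, Real.enorm_of_nonneg (hf0 ζ), mul_comm]

/-- one function of `L^2(σ)` which `P_B^+ (σ ·)` does not map into `L^2(w)` -/
private lemma bad_function : ∃ f : ℂ → ℝ, (∀ ξ, 0 ≤ f ξ) ∧
    MemLp (fun ξ => (f ξ : ℂ)) 2 (weighted σ) ∧
    Integrable (fun ξ => (σ ξ : ℂ) * (f ξ : ℂ)) area ∧
    eLpNorm (bergmanPos fun ξ => (σ ξ : ℂ) * (f ξ : ℂ)) 2 (weighted w) = ⊤ := by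
  set c : ENNReal := (ENNReal.ofReal Real.pi)⁻¹ with hc
  have hcT : c ≠ ⊤ := by simp [hc, Real.pi_pos]
  have hc0 : c ≠ 0 := by simp [hc]
  choose F hFm hFM hFs hF using fun k : ℕ => Pool.Agent.H55.positive_unbounded ((4:NNReal) ^ k)
  set S : ℕ → ENNReal := fun k => ∫⁻ ζ in ball (0:ℂ) 1, ‖F k ζ‖ₑ ^ 2 * ENNReal.ofReal (sig ζ) with hS
  have hsigm : AEMeasurable (fun ζ => ENNReal.ofReal (sig ζ)) (volume.restrict (ball (0:ℂ) 1)) :=
    (Pool.Agent.H55.sig_continuousOn.aemeasurable measurableSet_ball).ennreal_ofReal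
  have hST : ∀ k, S k ≠ ⊤ := by
    intro k
    obtain ⟨M, hM⟩ := hFM k
    have h1 := Pool.Agent.H55.sig_integrable_f (hFm k) hM
    have h2 : S k = ∫⁻ z in ball (0:ℂ) 1, ‖‖F k z‖ ^ 2 * sig z‖ₑ := by
      apply lintegral_congr
      intro z
      rw [enorm_mul, enorm_pow, enorm_norm, Real.enorm_of_nonneg (Pool.Agent.H55.sig_nonneg z)]
    rw [h2]
    exact h1.2.ne
  have hS0 : ∀ k, S k ≠ 0 := by
    intro k h0
    apply hF k
    have h1 : (fun ζ => ‖F k ζ‖ₑ ^ 2 * ENNReal.ofReal (sig ζ))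
        =ᵐ[volume.restrict (ball (0:ℂ) 1)] 0 := by
      refine (lintegral_eq_zero_iff' ?_).mp h0
      exact ((hFm k).enorm.pow_const 2).aemeasurable.mul hsigm
    have h2 : ∀ z : ℂ, ∫⁻ ζ in ball (0:ℂ) 1,
        ‖F k ζ‖ₑ * ENNReal.ofReal (sig ζ) / ‖1 - z * starRingEnd ℂ ζ‖ₑ ^ 2 = 0 := by
      intro z
      have h3 : (fun ζ => ‖F k ζ‖ₑ * ENNReal.ofReal (sig ζ) / ‖1 - z * starRingEnd ℂ ζ‖ₑ ^ 2)
          =ᵐ[volume.restrict (ball (0:ℂ) 1)] fun _ => 0 := by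
        filter_upwards [h1] with ζ hζ
        simp only [Pi.zero_apply, mul_eq_zero, pow_eq_zero_iff, ne_eq, OfNat.ofNat_ne_zero,
          not_false_eq_true] at hζ
        rcases hζ with h | h
        · rw [h, zero_mul, ENNReal.zero_div]
        · rw [h, mul_zero, ENNReal.zero_div]
      rw [lintegral_congr_ae h3, lintegral_zero]
    simp only [h2]
    simp
  set t : ℕ → NNReal := fun k => NNReal.sqrt ((1 / 2) ^ k / (S k).toNNReal) with ht
  have ht2 : ∀ k, ((t k : NNReal) : ENNReal) ^ 2 * S k = (1 / 2) ^ k := by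
    intro k
    have h1 : (S k).toNNReal ≠ 0 := ENNReal.toNNReal_ne_zero.mpr ⟨hS0 k, hST k⟩
    have h2 : (t k) ^ 2 * (S k).toNNReal = (1 / 2) ^ k := by
      rw [ht]
      simp only [NNReal.sq_sqrt]
      rw [div_mul_cancel₀ _ h1]
    have h3 : S k = ((S k).toNNReal : ENNReal) := (ENNReal.coe_toNNReal (hST k)).symm
    rw [h3, ← ENNReal.coe_pow, ← ENNReal.coe_mul, h2]
    push_cast
    norm_num
  set G : ℂ → ENNReal := fun ξ => ∑' k, ((t k : ENNReal) * ‖F k ξ‖ₑ) ^ 2 with hG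
  have hGm : Measurable G := by
    apply Measurable.tsum
    intro k
    exact ((hFm k).enorm.const_mul _).pow_const 2
  have hGint : ∫⁻ ξ in ball (0:ℂ) 1, G ξ * ENNReal.ofReal (sig ξ) = 2 := by
    have h1 : ∀ ξ, G ξ * ENNReal.ofReal (sig ξ)
        = ∑' k, ((t k : ENNReal) ^ 2 * (‖F k ξ‖ₑ ^ 2 * ENNReal.ofReal (sig ξ))) := by
      intro ξ
      rw [hG]
      simp only []
      rw [← ENNReal.tsum_mul_right]
      apply tsum_congr
      intro k
      rw [mul_pow, mul_assoc]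
    simp only [h1]
    rw [lintegral_tsum]
    · have h2 : ∀ k, ∫⁻ ξ in ball (0:ℂ) 1,
          (t k : ENNReal) ^ 2 * (‖F k ξ‖ₑ ^ 2 * ENNReal.ofReal (sig ξ)) = (1 / 2) ^ k := by
        intro k
        rw [lintegral_const_mul' _ _ (ENNReal.pow_ne_top ENNReal.coe_ne_top)]
        exact ht2 k
      simp only [h2]
      rw [ENNReal.tsum_geometric, one_div, ENNReal.one_sub_inv_two, inv_inv]
    · intro k
      exact (((hFm k).enorm.pow_const 2).aemeasurable.mul hsigm).const_mul _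
  -- the function
  set f : ℂ → ℝ := fun ξ => Real.sqrt (G ξ).toReal with hf
  have hf0 : ∀ ξ, 0 ≤ f ξ := fun ξ => Real.sqrt_nonneg _
  have hfm : Measurable f := hGm.ennreal_toReal.sqrt
  have hfsq : ∀ ξ, ‖f ξ‖ₑ ^ 2 = ENNReal.ofReal (G ξ).toReal := by
    intro ξ
    rw [Real.enorm_of_nonneg (hf0 ξ), ← ENNReal.ofReal_pow (hf0 ξ), hf]
    simp only []
    rw [Real.sq_sqrt ENNReal.toReal_nonneg]
  have hfsq' : ∀ ξ, ‖(f ξ : ℂ)‖ₑ ^ 2 = ENNReal.ofReal (G ξ).toReal := by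
    intro ξ
    rw [← hfsq]
    congr 1
    rw [← ofReal_norm, Complex.norm_real, ofReal_norm]
  have hfL : MemLp (fun ξ => (f ξ : ℂ)) 2 (weighted σ) := by
    refine ⟨(Complex.measurable_ofReal.comp hfm).aestronglyMeasurable, ?_⟩
    have h1 : eLpNorm (fun ξ => (f ξ : ℂ)) 2 (weighted σ) ^ 2 < ⊤ := by
      rw [sq_norm σ_cont]
      refine ENNReal.mul_lt_top hcT.lt_top ?_
      refine lt_of_le_of_lt (lintegral_mono (g := fun ξ => G ξ * ENNReal.ofReal (sig ξ)) ?_) ?_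
      · intro ξ
        simp only []
        rw [hfsq', σ_eq]
        gcongr
        exact ENNReal.ofReal_toReal_le
      · rw [hGint]
        exact ENNReal.ofNat_lt_top
    exact (ENNReal.pow_lt_top_iff (n := 2)).mp h1 |>.resolve_right (by norm_num)
  obtain ⟨g, hg, hfg, hae, hint⟩ := mk_data hfL
  have hfint : Integrable (fun ξ => (σ ξ : ℂ) * (f ξ : ℂ)) area := hint.congr hae.symm
  refine ⟨f, hf0, hfL, hfint, ?_⟩
  -- finiteness of G where σ does not vanish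
  have hfin : ∀ᵐ ξ ∂(volume.restrict (ball (0:ℂ) 1)), G ξ * ENNReal.ofReal (sig ξ) < ⊤ := by
    refine ae_lt_top' (hGm.aemeasurable.mul hsigm) ?_
    rw [hGint]
    exact ENNReal.ofNat_ne_top
  have hkey : ∀ k z, (t k : ENNReal) * ∫⁻ ζ in ball (0:ℂ) 1,
      ‖F k ζ‖ₑ * ENNReal.ofReal (sig ζ) / ‖1 - z * starRingEnd ℂ ζ‖ₑ ^ 2 ≤
      ∫⁻ ζ in ball (0:ℂ) 1, ‖f ζ‖ₑ * ENNReal.ofReal (σ ζ) / ‖1 - z * starRingEnd ℂ ζ‖ₑ ^ 2 := by
    intro k z
    rw [← lintegral_const_mul' _ _ ENNReal.coe_ne_top]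
    refine lintegral_mono_ae ?_
    filter_upwards [hfin] with ξ hξ
    rw [σ_eq, ← mul_div_assoc, ← mul_assoc]
    by_cases h0 : ENNReal.ofReal (sig ξ) = 0
    · rw [h0, mul_zero, mul_zero]
    · have hGf : G ξ ≠ ⊤ := by
        intro hT
        rw [hT, ENNReal.top_mul h0] at hξ
        exact lt_irrefl _ hξ
      have h1 : (t k : ENNReal) * ‖F k ξ‖ₑ ≤ ‖f ξ‖ₑ := by
        rw [← sq_le_iff, hfsq, ENNReal.ofReal_toReal hGf]
        exact ENNReal.le_tsum k
      gcongr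
  have hbig : ∀ k : ℕ, c ^ 3 * 2 ^ k ≤
      eLpNorm (bergmanPos fun ξ => (σ ξ : ℂ) * (f ξ : ℂ)) 2 (weighted w) ^ 2 := by
    intro k
    rw [sq_norm w_cont, ← hc]
    have h1 : ∀ z ∈ ball (0:ℂ) 1, c ^ 2 * ((t k : ENNReal) ^ 2 * ((∫⁻ ζ in ball (0:ℂ) 1,
        ‖F k ζ‖ₑ * ENNReal.ofReal (sig ζ) / ‖1 - z * starRingEnd ℂ ζ‖ₑ ^ 2) ^ 2 *
          ENNReal.ofReal (wgt z)))
        ≤ ‖bergmanPos (fun ξ => (σ ξ : ℂ) * (f ξ : ℂ)) z‖ₑ ^ 2 * ENNReal.ofReal (w z) := by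
      intro z hz
      rw [pos_formula hf0 hfint hz, ← hc, w_eq hz, mul_pow, ← mul_assoc, ← mul_assoc, mul_assoc (c ^ 2),
        ← mul_pow]
      gcongr
      exact hkey k z
    have h2 := setLIntegral_mono' (μ := volume) measurableSet_ball h1
    rw [lintegral_const_mul' _ _ (ENNReal.pow_ne_top hcT),
      lintegral_const_mul' _ _ (ENNReal.pow_ne_top ENNReal.coe_ne_top)] at h2
    have h3 := (not_le.mp (hF k)).le
    have h4 : (t k : ENNReal) ^ 2 * ((((4:NNReal) ^ k : NNReal) : ENNReal) * S k) = 2 ^ k := by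
      rw [mul_left_comm, ht2 k]
      push_cast
      rw [← mul_pow]
      congr 1
      rw [one_div, show (4:ENNReal) = 2 * 2 by norm_num, mul_assoc,
        ENNReal.mul_inv_cancel (by norm_num) (by norm_num), mul_one]
    calc c ^ 3 * 2 ^ k = c * (c ^ 2 * ((t k : ENNReal) ^ 2 * ((((4:NNReal) ^ k : NNReal) : ENNReal) * S k))) := by
          rw [h4]; ring
      _ ≤ _ := by
          refine mul_le_mul_right (le_trans ?_ h2) c
          gcongr
  by_contra hne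
  have hfin2 : eLpNorm (bergmanPos fun ξ => (σ ξ : ℂ) * (f ξ : ℂ)) 2 (weighted w) ^ 2 / c ^ 3 ≠ ⊤ :=
    ENNReal.div_ne_top (ENNReal.pow_ne_top hne) (pow_ne_zero 3 hc0)
  obtain ⟨n, hn⟩ := ENNReal.exists_nat_gt hfin2
  have h1 := hbig n
  have h2 : (n : ENNReal) ≤ 2 ^ n := by
    have : n ≤ 2 ^ n := Nat.lt_two_pow_self.le
    exact_mod_cast this
  have h3 := (ENNReal.div_lt_iff (Or.inl (pow_ne_zero 3 hc0)) (Or.inl (ENNReal.pow_ne_top hcT))).mp hn
  have h4 : (n : ENNReal) * c ^ 3 ≤ c ^ 3 * 2 ^ n := by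
    rw [mul_comm]
    gcongr
  exact absurd (lt_of_lt_of_le h3 (h4.trans h1)) (lt_irrefl _)

/-- `T` is `(σ, w)`-bounded: `‖T(σ f)‖_{L^2(w)} ≤ C ‖f‖_{L^2(σ)}` for all `f ∈ L^2(σ)`. -/
def IsBounded (T : (ℂ → ℂ) → ℂ → ℂ) (s v : ℂ → ℝ) : Prop :=
  ∃ C : NNReal, ∀ f : ℂ → ℂ, MemLp f 2 (weighted s) →
    eLpNorm (T fun ξ => (s ξ : ℂ) * f ξ) 2 (weighted v) ≤ C * eLpNorm f 2 (weighted s)

/-- The explicit pair `w(z) = (1 - |z|^2) / |1 - z|^2` (positive harmonic) and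
`σ(z) = |1 - z|^2 ∑_k (N_k / 2^k) |z|^(2 (N_k - 1))`, `N_k = 2^(4^k)` (continuous, integrable),
consists of subharmonic weights on the disc; `P_B` is `(σ, w)`-bounded and `P_B^+` is not; even
more, `P_B^+ (σ f)` is not in `L^2(w)` for one single nonnegative `f ∈ L^2(σ)`. All integrals that
define `P_B (σ f)(z)` and `P_B^+ (σ f)(z)`, `|z| < 1`, `f ∈ L^2(σ)`, converge absolutely. -/
theorem result :
    area Set.univ = 1 ∧
    IsSubharmonicWeight w ∧ IsSubharmonicWeight σ ∧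
    (∀ z ∈ ball (0:ℂ) 1, 0 < w z) ∧ InnerProductSpace.HarmonicOnNhd w (ball (0:ℂ) 1) ∧
    ContinuousOn σ (ball (0:ℂ) 1) ∧ Integrable σ area ∧
    (∀ f : ℂ → ℂ, MemLp f 2 (weighted σ) →
      Integrable (fun ξ => (σ ξ : ℂ) * f ξ) area ∧
      (∀ z ∈ ball (0:ℂ) 1,
        Integrable (fun ξ => (σ ξ : ℂ) * f ξ / (1 - z * starRingEnd ℂ ξ) ^ 2) area ∧
        Integrable (fun ξ => (σ ξ : ℂ) * f ξ / ((‖1 - z * starRingEnd ℂ ξ‖ ^ 2 : ℝ) : ℂ)) area) ∧
      MemLp (bergman fun ξ => (σ ξ : ℂ) * f ξ) 2 (weighted w) ∧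
      AEStronglyMeasurable (bergmanPos fun ξ => (σ ξ : ℂ) * f ξ) (weighted w)) ∧
    IsBounded bergman σ w ∧
    ¬ IsBounded bergmanPos σ w ∧
    ∃ f : ℂ → ℝ, (∀ ξ, 0 ≤ f ξ) ∧ MemLp (fun ξ => (f ξ : ℂ)) 2 (weighted σ) ∧
      eLpNorm (bergmanPos fun ξ => (σ ξ : ℂ) * (f ξ : ℂ)) 2 (weighted w) = ⊤ := by
  obtain ⟨C, hC⟩ := bounded_main
  obtain ⟨f₀, h0, hL, _, hbad⟩ := bad_function
  refine ⟨area_univ, w_sub, σ_sub, fun z hz => w_pos hz, w_harm, σ_cont, int_area σ_int0,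
    fun f hf => ?_, ⟨C, hC⟩, ?_, f₀, h0, hL, hbad⟩
  · obtain ⟨g, hg, hfg, hae, hint'⟩ := mk_data hf
    have hint : Integrable (fun ξ => (σ ξ : ℂ) * f ξ) area := hint'.congr hae.symm
    refine ⟨hint, fun z hz => ⟨kernel_int hint hz, kernelPos_int hint hz⟩, ⟨?_, ?_⟩, ?_⟩
    · exact (bergman_meas hint.1).mono_ac (weighted_ac w)
    · exact lt_of_le_of_lt (hC f hf) (ENNReal.mul_lt_top ENNReal.coe_lt_top hf.2)
    · exact (bergmanPos_meas hint.1).mono_ac (weighted_ac w)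
  · rintro ⟨D, hD⟩
    have h1 := hD _ hL
    rw [hbad] at h1
    exact absurd (lt_of_le_of_lt h1 (ENNReal.mul_lt_top ENNReal.coe_lt_top hL.2)) (lt_irrefl _)

end Pool.Agent.Results.MP_c1f8f0_an.PoissonWeightCounterexample
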